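import Pool.Agent.D0H73.MK.Stm

/-!
# Module IND of MK: the induction on the density character
-/

set_option autoImplicit false

open Set Topology Filter Cardinal Ordinal

namespace Pool.Agent.D0H35.MK

open Pool.Agent.D0H73.MK

universe u

section
variable {𝕜 : Type} [RCLike 𝕜] {X : Type u} [NormedAddCommGroup X] [NormedSpace 𝕜 X]

lemma mem_rng {D : X →L[𝕜] X} {x : X} : x ∈ rng D ↔ ∃ y, D y = x := by
  simp [rng]

lemma mem_rng_iff {D : X →L[𝕜] X} (hD : ∀ x, D (D x) = D x) {x : X} : x ∈ rng D ↔ D x = x := by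
  rw [mem_rng]
  constructor
  · rintro ⟨y, rfl⟩
    exact hD y
  · intro h
    exact ⟨x, h⟩

lemma coe_rng (D : X →L[𝕜] X) : ((rng D : Submodule 𝕜 X) : Set X) = range D := by
  ext x
  exact mem_rng

lemma rng_closed {D : X →L[𝕜] X} (hD : ∀ x, D (D x) = D x) :
    IsClosed ((rng D : Submodule 𝕜 X) : Set X) := by
  have : ((rng D : Submodule 𝕜 X) : Set X) = {x | D x = x} := by
    ext x
    exact mem_rng_iff hD
  rw [this]
  exact isClosed_eq D.continuous continuous_id

lemma densIn_sep {A : Set X} {μ : Cardinal.{u}} (hμ : μ ≤ ℵ₀) (h : DensIn A μ) :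
    TopologicalSpace.IsSeparable A := by
  obtain ⟨s, -, hs, hc⟩ := h
  exact ⟨s, Cardinal.le_aleph0_iff_set_countable.mp (hc.trans hμ), hs⟩

lemma densIn_sub {W : Submodule 𝕜 X} {μ : Cardinal.{u}} (h : DensIn (W : Set X) μ) :
    DensIn (Set.univ : Set W) μ := by
  obtain ⟨s, hsub, hs, hc⟩ := h
  refine ⟨((↑) : W → X) ⁻¹' s, subset_univ _, ?_, ?_⟩
  · rintro ⟨x, hx⟩ -
    rw [closure_subtype]
    have : ((↑) : W → X) '' (((↑) : W → X) ⁻¹' s) = s := by
      ext y
      constructor
      · rintro ⟨z, hz, rfl⟩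
        exact hz
      · intro hy
        exact ⟨⟨y, hsub hy⟩, hy, rfl⟩
    rw [this]
    exact hs hx
  · exact (Cardinal.mk_preimage_of_injective _ _ Subtype.val_injective).trans hc

end

theorem t_IND : S_PRI.{u} → S_BASE.{u} → S_CONV.{u} → S_CONCAT.{u} → S_IND.{u} := by
  intro hPRI hBASE hCONV hCONCAT 𝕜 _ κ
  induction κ using WellFoundedLT.induction with
  | ind κ ih =>
  intro hκ X _ _ _ Γ _ P r hP hd
  rcases hκ.eq_or_lt with h0 | h0
  · subst h0
    exact hBASE 𝕜 X (ContinuousLinearMap.id 𝕜 X) (fun x => rfl)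
      (by
        have := densIn_sep le_rfl hd
        simpa using this) ℵ₀ le_rfl
  · obtain ⟨R, hR, hdens, hsk⟩ := hPRI 𝕜 X Γ P r hP κ h0 hd
    refine hCONCAT 𝕜 X κ h0 R hR ?_
    intro α hα
    have hα1 : α + 1 ≤ κ.ord := by
      rw [← Order.succ_eq_add_one]
      exact Order.succ_le_of_lt hα
    have hD : ∀ x, (R (α + 1) - R α) ((R (α + 1) - R α) x) = (R (α + 1) - R α) x := by
      intro x
      have h1 := hR.comp α (α + 1) (le_self_add) hα1 x
      have h2 := hR.comp (α + 1) (α + 1) le_rfl hα1 x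
      have h3 := hR.comp α α le_rfl hα.le x
      simp only [_root_.sub_apply, map_sub]
      rw [h1.1, h1.2, h2.1, h3.1]
      abel
    rcases eq_or_ne α 0 with ha | ha
    · have hs := hdens α hα
      refine hBASE 𝕜 X _ hD (densIn_sep ?_ hs) _ (le_max_right _ _)
      subst ha
      simp
    · obtain ⟨Γ', _, P', r', hP'⟩ := hsk α hα ha
      have hμ : max α.card ℵ₀ < κ := by
        refine max_lt ?_ h0
        exact Cardinal.lt_ord.mp hα
      have : CompleteSpace (rng (R (α + 1) - R α)) :=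
        (rng_closed hD).completeSpace_coe
      have hd' : DensIn (Set.univ : Set (rng (R (α + 1) - R α))) (max α.card ℵ₀) := by
        apply densIn_sub
        rw [coe_rng]
        exact hdens α hα
      have := ih (max α.card ℵ₀) hμ (le_max_right _ _) (rng (R (α + 1) - R α)) Γ' P' r' hP' hd'
      exact hCONV 𝕜 X _ hD _ this

end Pool.Agent.D0H35.MK

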