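import Pool.Agent.D0H73.MK.Stm

/-!
# Module PRI of MK: the projectional resolution from the limit operators
-/

set_option autoImplicit false

open Set Topology Filter Cardinal Ordinal

namespace Pool.Agent.D0H35.MK

open Pool.Agent.D0H73.MK

universe u

section
variable {𝕜 : Type} [RCLike 𝕜] {X : Type u} [NormedAddCommGroup X] [NormedSpace 𝕜 X]
variable {Γ : Type u} [PartialOrder Γ] {P : Γ → X →L[𝕜] X}

/-- limits are determined -/
lemma lim_congr {T : Set Γ} {L : X →L[𝕜] X} (hT : IsDir T) (hL : IsLim P T L) {x y : X}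
    (h : ∀ t ∈ T, P t x = P t y) : L x = L y := by
  by_contra hne
  have hpos : 0 < ‖L x - L y‖ := norm_pos_iff.mpr (sub_ne_zero.mpr hne)
  obtain ⟨t0, ht0, h0⟩ := hL.lim x (‖L x - L y‖ / 2) (by positivity)
  obtain ⟨t1, ht1, h1⟩ := hL.lim y (‖L x - L y‖ / 2) (by positivity)
  obtain ⟨v, hv, hv0, hv1⟩ := hT.2 t0 ht0 t1 ht1
  have a := h0 v hv hv0
  have b := h1 v hv hv1
  rw [← h v hv] at b
  have : ‖L x - L y‖ ≤ ‖P v x - L x‖ + ‖P v x - L y‖ := by
    have e : L x - L y = (P v x - L y) - (P v x - L x) := by abel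
    rw [e]
    refine (norm_sub_le _ _).trans ?_
    linarith
  linarith

lemma lim_fix {T : Set Γ} {L : X →L[𝕜] X} (hL : IsLim P T L) {x : X}
    (hx : x ∈ closure (⋃ t ∈ T, range (P t))) : L x = x := by
  rw [← hL.rng] at hx
  obtain ⟨y, rfl⟩ := hx
  exact hL.idem y

lemma lim_mono {T T' : Set Γ} {L L' : X →L[𝕜] X} (hT : IsDir T) (hTT : T ⊆ T')
    (hL : IsLim P T L) (hL' : IsLim P T' L') (x : X) : L' (L x) = L x ∧ L (L' x) = L x := by
  constructor
  · apply lim_fix hL'
    have h1 : L x ∈ closure (⋃ t ∈ T, range (P t)) := by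
      rw [← hL.rng]
      exact mem_range_self x
    refine closure_mono ?_ h1
    exact biUnion_subset_biUnion_left hTT
  · apply lim_congr hT hL
    intro t ht
    exact hL'.left t (hTT ht) x

/-- a small dense set of the range of a limit operator -/
lemma dens_lim (hP : IsSkel P) {T : Set Γ} {L : X →L[𝕜] X} (hL : IsLim P T L)
    {μ : Cardinal.{u}} (hμ : ℵ₀ ≤ μ) (hT : #T ≤ μ) :
    ∃ C : Set X, range L ⊆ closure C ∧ #C ≤ μ := by
  choose c hc hcs using fun t : T => hP.separable t
  refine ⟨⋃ t : T, c t, ?_, ?_⟩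
  · rw [hL.rng]
    apply closure_minimal _ isClosed_closure
    apply iUnion₂_subset
    intro t ht
    refine (hcs ⟨t, ht⟩).trans ?_
    exact closure_mono (subset_iUnion c ⟨t, ht⟩)
  · refine (Cardinal.mk_iUnion_le_sum_mk).trans ?_
    refine (Cardinal.sum_le_sum _ (fun _ => ℵ₀) ?_).trans ?_
    · intro t
      exact Cardinal.le_aleph0_iff_set_countable.mpr (hc t)
    · rw [Cardinal.sum_const]
      simp only [Cardinal.lift_id]
      calc #T * ℵ₀ ≤ μ * ℵ₀ := mul_le_mul_left hT _
        _ = max μ ℵ₀ := Cardinal.mul_eq_max hμ le_rfl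
        _ = μ := max_eq_left hμ

end

/-- enumeration of a small set by ordinals -/
lemma exists_enum {X : Type u} (s : Set X) (x0 : X) (hx0 : x0 ∈ s) (κ : Cardinal.{u}) (h : #s ≤ κ) :
    ∃ d : Ordinal.{u} → X, ∀ x ∈ s, ∃ ξ < κ.ord, d ξ = x := by
  have h1 : Nonempty (s ↪ Iio κ.ord) := by
    rw [← Cardinal.lift_mk_le', Cardinal.mk_Iio_ordinal, Cardinal.card_ord]
    simpa using h
  obtain ⟨f⟩ := h1
  have : Nonempty s := ⟨⟨x0, hx0⟩⟩
  classical
  refine ⟨fun ξ => if hξ : ξ < κ.ord then (Function.invFun f ⟨ξ, hξ⟩ : s) else x0, ?_⟩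
  intro x hx
  refine ⟨(f ⟨x, hx⟩ : Iio κ.ord), (f ⟨x, hx⟩).2, ?_⟩
  have h2 : ((f ⟨x, hx⟩ : Iio κ.ord) : Ordinal.{u}) < κ.ord := (f ⟨x, hx⟩).2
  show (if hξ : ((f ⟨x, hx⟩ : Iio κ.ord) : Ordinal.{u}) < κ.ord then
    ((Function.invFun f ⟨_, hξ⟩ : s) : X) else x0) = x
  rw [dif_pos h2]
  have h3 : (Function.invFun f (f ⟨x, hx⟩) : s) = ⟨x, hx⟩ :=
    Function.leftInverse_invFun f.injective _
  exact congrArg Subtype.val h3

theorem t_PRI : S_LIM.{u} → S_RESTR.{u} → S_PIECE.{u} → S_FG.{u} → S_PRI.{u} := by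
  intro hLIM hRESTR hPIECE hFG 𝕜 _ X _ _ _ Γ _ P r hP κ hκ hd
  obtain ⟨s, -, hs, hsc⟩ := hd
  have hne : s.Nonempty := by
    rw [← closure_nonempty_iff]
    exact ⟨0, hs (mem_univ _)⟩
  obtain ⟨x0, hx0⟩ := hne
  obtain ⟨d, hd⟩ := exists_enum s x0 hx0 κ hsc
  have hr : 0 ≤ r := by
    obtain ⟨t⟩ := hP.nonempty
    exact (norm_nonneg _).trans (hP.bdd t)
  have hu : ∀ x, ∃ s, P s x = x := by
    intro x
    obtain ⟨t, y, hy⟩ := hP.union x
    refine ⟨t, ?_⟩
    rw [← hy]
    exact hP.proj t y
  choose g hg using fun ξ : Ordinal.{u} => hu (d ξ)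
  obtain ⟨T, hTd, hTm, hTg, hTl, hTc⟩ := hFG Γ hP.nonempty hP.directed g
  choose L hL hLr using fun α : Ordinal.{u} => hLIM 𝕜 X Γ P r hP (T α) (hTd α)
  have hmono : ∀ β α, β ≤ α → ∀ x, L α (L β x) = L β x ∧ L β (L α x) = L β x := by
    intro β α hβ x
    exact lim_mono (hTd β) (hTm hβ) (hL β) (hL α) x
  classical
  set R : Ordinal.{u} → X →L[𝕜] X := fun α => if α = 0 then 0 else L α with hRdef
  have hR0 : R 0 = 0 := by simp [hRdef]
  have hRne : ∀ α, α ≠ 0 → R α = L α := by
    intro α hα
    simp [hRdef, hα]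
  have hsucc : ∀ α : Ordinal.{u}, α + 1 ≠ 0 := by
    intro α
    exact (lt_of_lt_of_le zero_lt_one (le_add_self : (1 : Ordinal.{u}) ≤ α + 1)).ne'
  have hcomp : ∀ β α, β ≤ α → ∀ x, R α (R β x) = R β x ∧ R β (R α x) = R β x := by
    intro β α hβ x
    rcases eq_or_ne β 0 with h0 | h0
    · subst h0
      simp [hR0]
    · have hα : α ≠ 0 := by
        intro h
        subst h
        exact h0 (le_antisymm hβ zero_le)
      rw [hRne β h0, hRne α hα]
      exact hmono β α hβ x
  have hκ0 : κ.ord ≠ 0 := by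
    intro h
    rw [Cardinal.ord_eq_zero] at h
    subst h
    exact absurd hκ (not_lt.mpr zero_le)
  have htop : R κ.ord = ContinuousLinearMap.id 𝕜 X := by
    rw [hRne _ hκ0]
    ext x
    show L κ.ord x = x
    apply lim_fix (hL κ.ord)
    have h1 : s ⊆ ⋃ t ∈ T κ.ord, range (P t) := by
      intro y hy
      obtain ⟨ξ, hξ, rfl⟩ := hd y hy
      obtain ⟨t, ht, hst⟩ := hTg ξ κ.ord hξ
      refine mem_iUnion₂.mpr ⟨t, ht, d ξ, ?_⟩
      have := (hP.comm _ _ hst (d ξ)).2
      rw [hg ξ] at this
      exact this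
    exact closure_mono h1 (hs (mem_univ x))
  refine ⟨R, ⟨hR0, htop, fun β α hβ _ x => hcomp β α hβ x, ?_⟩, ?_, ?_⟩
  · -- density
    intro x
    set M : Submodule 𝕜 X := Submodule.span 𝕜 {y | ∃ β < κ.ord, y = R (β + 1) x - R β x} with hM
    have key : ∀ α : Ordinal.{u}, α ≤ κ.ord → R α x ∈ closure (M : Set X) := by
      intro α
      induction α using Ordinal.limitRecOn with
      | zero =>
        intro _
        rw [hR0]
        exact subset_closure M.zero_mem
      | add_one β ih =>
        intro hβ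
        have hβ' : β < κ.ord := by
          exact Order.add_one_le_iff.mp hβ
        have h1 := ih hβ'.le
        have h2 : R (β + 1) x - R β x ∈ closure (M : Set X) := by
          apply subset_closure
          exact Submodule.subset_span ⟨β, hβ', rfl⟩
        have h3 : R (β + 1) x = (R (β + 1) x - R β x) + R β x := by abel
        rw [h3]
        rw [← Submodule.topologicalClosure_coe] at h1 h2 ⊢
        exact M.topologicalClosure.add_mem h2 h1
      | limit α hα ih =>
        intro hακ
        have hα0 : α ≠ 0 := by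
          intro h
          subst h
          exact hα.1 isMin_bot
        rw [Metric.mem_closure_iff]
        intro ε hε
        have hmem : L α x ∈ closure (⋃ t ∈ T α, range (P t)) := by
          rw [← (hL α).rng]
          exact mem_range_self x
        rw [Metric.mem_closure_iff] at hmem
        obtain ⟨y, hy, hyd⟩ := hmem (ε / (2 * (r + 1))) (by positivity)
        obtain ⟨t, ht, z, rfl⟩ := mem_iUnion₂.mp hy
        rw [hTl α hα] at ht
        obtain ⟨β, hβ, ht⟩ := mem_iUnion₂.mp ht
        have hβα : β < α := hβ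
        set β' := max β 1 with hβ'
        have h1α : (1 : Ordinal.{u}) < α := by
          have := hα.add_one_lt (pos_iff_ne_zero.mpr hα0)
          simpa using this
        have hβ'α : β' < α := max_lt hβα h1α
        have hβ'0 : β' ≠ 0 := by
          intro h
          have : (1 : Ordinal.{u}) ≤ β' := le_max_right _ _
          rw [h] at this
          exact absurd this (by simp)
        have ht' : t ∈ T β' := hTm (le_max_left β 1) ht
        have hfix : L β' (P t z) = P t z := (hL β').right t ht' z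
        have hest : ‖R α x - R β' x‖ < ε / 2 := by
          rw [hRne α hα0, hRne β' hβ'0]
          have e1 : L β' (L α x) = L β' x := (hmono β' α hβ'α.le x).2
          have e2 : L α x - L β' x = (L α x - P t z) - L β' (L α x - P t z) := by
            rw [map_sub, e1, hfix]
            abel
          rw [e2]
          have e3 : ‖L β' (L α x - P t z)‖ ≤ r * ‖L α x - P t z‖ :=
            (L β').le_of_opNorm_le (hLr β') _
          rw [dist_eq_norm] at hyd
          have e4 : ‖L α x - P t z‖ * (2 * (r + 1)) < ε := by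
            rwa [lt_div_iff₀ (by positivity)] at hyd
          have e5 := norm_sub_le (L α x - P t z) (L β' (L α x - P t z))
          nlinarith [norm_nonneg (L α x - P t z)]
        have h2 := ih β' hβ'α (hβ'α.le.trans hακ)
        rw [Metric.mem_closure_iff] at h2
        obtain ⟨w, hw, hwd⟩ := h2 (ε / 2) (by positivity)
        refine ⟨w, hw, ?_⟩
        calc dist (R α x) w ≤ dist (R α x) (R β' x) + dist (R β' x) w := dist_triangle _ _ _
          _ < ε / 2 + ε / 2 := by
            rw [dist_eq_norm (R α x)]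
            exact add_lt_add hest hwd
          _ = ε := by ring
    have := key κ.ord le_rfl
    rw [htop] at this
    exact this
  · -- density character of the pieces
    intro α hα
    have hcard : #(T (α + 1)) ≤ max α.card ℵ₀ := by
      refine (hTc (α + 1)).trans ?_
      rw [Ordinal.card_add_one]
      refine max_le ?_ (le_max_right _ _)
      rcases lt_or_ge α.card ℵ₀ with h | h
      · refine le_trans ?_ (le_max_right _ _)
        exact (Cardinal.add_lt_aleph0 h Cardinal.one_lt_aleph0).le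
      · rw [Cardinal.add_one_eq h]
        exact le_max_left _ _
    obtain ⟨C, hC, hCc⟩ := dens_lim hP.toIsSkel (hL (α + 1)) (le_max_right _ _) hcard
    set D := R (α + 1) - R α with hD
    refine ⟨D '' C, image_subset_range _ _, ?_, (Cardinal.mk_image_le).trans hCc⟩
    have h1 : range D ⊆ D '' (range (L (α + 1))) := by
      rintro _ ⟨x, rfl⟩
      refine ⟨L (α + 1) x, mem_range_self x, ?_⟩
      have e1 := (hcomp (α + 1) (α + 1) le_rfl x).1
      have e2 := (hcomp α (α + 1) le_self_add x).2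
      rw [← hRne (α + 1) (hsucc α)]
      simp only [hD, _root_.sub_apply]
      rw [e1, e2]
    refine h1.trans ((image_mono hC).trans ?_)
    exact image_closure_subset_closure_image D.continuous
  · intro α hα h0
    have e : R (α + 1) - R α = L (α + 1) - L α := by
      rw [hRne _ (hsucc α), hRne α h0]
    rw [e]
    obtain ⟨S, hS⟩ := hPIECE 𝕜 X Γ P r hP (T α) (T (α + 1)) (L α) (L (α + 1)) (hTd α) (hTd (α + 1))
      (hTm le_self_add) (hL α) (hL (α + 1))
    obtain ⟨P', hP', -⟩ := hRESTR 𝕜 X Γ P r hP S _ hS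
    exact ⟨S, inferInstance, P', r, hP'⟩

end Pool.Agent.D0H35.MK

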